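import Pool.Agent.H98.SLN.Targets

/-!
Row MSL of the board sln: the mean of `Sq`.
-/

set_option autoImplicit false

open MeasureTheory ProbabilityTheory Filter Topology
open Pool.Agent.H95 Pool.Agent.H95.Cop
open Pool.Agent.H98.SLN

namespace Pool.Agent.H36.SLN

theorem kq_nonneg (K : PMF ℕ) (q n : ℕ) : 0 ≤ kq K q n := by
  unfold kq
  split_ifs
  · exact kk_nonneg K n
  · exact le_rfl

theorem pf_MSL (_hUQB : T_UQB) : T_MSL := by
  intro K q ν b0 hb n
  induction n using Nat.strong_induction_on with
  | _ n ih =>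
    rcases n with _ | n
    · simp [mS]
    · have h1 : uq K q (n + 1) = ∑ j : Fin (n + 1), kq K q (j + 1) * uq K q (n - j) := by
        unfold uq
        rw [uu]
      rw [h1, mS, Finset.sum_mul]
      refine Finset.sum_le_sum fun j _ => ?_
      have hu : 0 ≤ uq K q (n - j) := uu_nonneg _ (kq_nonneg K q) _
      have hj : (j : ℕ) ≤ n := Nat.lt_succ_iff.mp j.2
      by_cases hq : (j : ℕ) + 1 ≤ q
      · have h2 := hb ((j : ℕ) + 1) (by omega) hq
        have h3 := ih (n - j) (by omega)
        have h4 : ((n - (j : ℕ) : ℕ) : ℝ) = n - j := by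
          rw [Nat.cast_sub hj]
        rw [h4] at h3
        push_cast at h2 ⊢
        rw [mul_assoc]
        refine mul_le_mul_of_nonneg_left ?_ (kq_nonneg K q _)
        have h5 : b0 * ((j : ℝ) + 1) * uq K q (n - j) ≤
            (∫ x : ℕ → ℝ, lc (H x 0 ((j : ℕ) + 1)) ∂(iid ν)) * uq K q (n - j) :=
          mul_le_mul_of_nonneg_right h2 hu
        calc uq K q (n - j) * (((n : ℝ) + 1) * b0)
            = b0 * ((j : ℝ) + 1) * uq K q (n - j) + uq K q (n - j) * (((n : ℝ) - j) * b0) := by
              ring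
          _ ≤ _ := add_le_add h5 h3
      · have h0 : kq K q ((j : ℕ) + 1) = 0 := by
          unfold kq
          rw [if_neg hq]
        rw [h0, zero_mul, zero_mul, zero_mul]

end Pool.Agent.H36.SLN
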