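import Pool.Agent.H98.SLN.Targets

/-!
Row TLQ of the board sln: tails of the inter-arrival law on the scale of the cells.
-/

set_option autoImplicit false

open MeasureTheory ProbabilityTheory Filter Topology
open Pool.Agent.H95 Pool.Agent.H95.Cop
open Pool.Agent.H98.SLN

namespace Pool.Agent.H36.SLN

theorem tail_le (K : PMF ℕ) (α c : ℝ) (hα : 0 < α) (hc : 0 < c) (q : ℕ) (hq : 1 ≤ q)
    (up : ∀ n : ℕ, q ≤ n → kk K n ≤ 2 * c * (n : ℝ) ^ (-(1 + α))) (m : ℕ) (hm : q ≤ m) :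
    tailK K (m + 1) ≤ 2 * c / α * (m : ℝ) ^ (-α) := by
  set C' : ℝ := 2 * c / α with hC'
  have hC'0 : 0 < C' := by positivity
  have key : ∀ j : ℕ, m ≤ j → kk K (j + 1) ≤ C' * ((j : ℝ) ^ (-α) - ((j : ℝ) + 1) ^ (-α)) := by
    intro j hj
    have h1 := rpow_tele1 α hα j (by omega)
    have h2 := up (j + 1) (by omega)
    push_cast at h2
    refine h2.trans ?_
    calc 2 * c * ((j : ℝ) + 1) ^ (-(1 + α)) = C' * (α * ((j : ℝ) + 1) ^ (-(1 + α))) := by
          rw [hC']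
          field_simp
      _ ≤ _ := mul_le_mul_of_nonneg_left h1 hC'0.le
  have hfin : ∀ M : ℕ, ∑ i ∈ Finset.range M, kk K (i + (m + 1)) ≤
      C' * ((m : ℝ) ^ (-α) - ((M + m : ℕ) : ℝ) ^ (-α)) := by
    intro M
    induction M with
    | zero => simp
    | succ M ih =>
      rw [Finset.sum_range_succ]
      have h1 := key (M + m) (by omega)
      have e : ((M + 1 + m : ℕ) : ℝ) = ((M + m : ℕ) : ℝ) + 1 := by push_cast; ring
      rw [e, show M + (m + 1) = M + m + 1 by ring]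
      calc ∑ i ∈ Finset.range M, kk K (i + (m + 1)) + kk K (M + m + 1)
          ≤ C' * ((m : ℝ) ^ (-α) - ((M + m : ℕ) : ℝ) ^ (-α)) +
            C' * (((M + m : ℕ) : ℝ) ^ (-α) - (((M + m : ℕ) : ℝ) + 1) ^ (-α)) := add_le_add ih h1
        _ = _ := by ring
  have h1 : HasSum (fun i => kk K (i + (m + 1))) (tailK K (m + 1)) := by
    have := (kk_hasSum K)
    rw [← hasSum_nat_add_iff' (m + 1)] at this
    exact this
  refine le_of_tendsto h1.tendsto_sum_nat (Filter.Eventually.of_forall (fun M => ?_))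
  refine (hfin M).trans ?_
  apply mul_le_mul_of_nonneg_left _ hC'0.le
  have : 0 ≤ ((M + m : ℕ) : ℝ) ^ (-α) := Real.rpow_nonneg (Nat.cast_nonneg _) _
  linarith

theorem pf_TLQ : T_TLQ := by
  intro K α c δ ℓ q h
  have hδ0 := h.δ0
  have hδ1 := h.δ1
  set s : ℝ := Real.sqrt δ with hs
  have hs0 : 0 < s := Real.sqrt_pos.mpr hδ0
  have hss : s * s = δ := Real.mul_self_sqrt hδ0.le
  have hs1 : s ≤ 1 / 2 ^ 10 := by
    rw [hs, Real.sqrt_le_left (by positivity)]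
    refine hδ1.trans (le_of_eq (by norm_num))
  have hq1 : (1 : ℝ) ≤ q := by exact_mod_cast h.q1
  have hq3 := h.q3
  have hq2 := h.q2
  rw [← hs] at hq2 hq3
  have hl0 : (0 : ℝ) ≤ ℓ := Nat.cast_nonneg _
  have hql : (q : ℝ) ≤ ℓ := by
    refine hq3.trans ?_
    calc s * ℓ ≤ 1 * ℓ := mul_le_mul_of_nonneg_right (by linarith) hl0
      _ = ℓ := one_mul _
  have hl1 : (1 : ℝ) ≤ ℓ := hq1.trans hql
  have hlp : (0 : ℝ) < ℓ := by linarith
  have hα0 : 0 < α := by linarith [h.α0]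
  have hα1 := h.α1
  have hc := h.c0
  have hp : 0 < (ℓ : ℝ) ^ (1 - α) := Real.rpow_pos_of_pos hlp _
  have hT : 0 < TS K ℓ := by
    have h1 := h.r1
    have h2 : 0 < c * (ℓ : ℝ) ^ (1 - α) := mul_pos hc hp
    by_contra h3
    push Not at h3
    have : 4 * δ * TS K ℓ ≤ 0 := mul_nonpos_of_nonneg_of_nonpos (by linarith) h3
    linarith
  have hr1 := h.r1
  -- `1 / α`
  have hia : 2 * c / α ≤ 2.02 * c := by
    rw [div_le_iff₀ hα0]
    have h1 : 1 - 1 / 2 ^ 20 ≤ α := by linarith [h.α0]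
    nlinarith
  refine ⟨by exact_mod_cast hl1, by exact_mod_cast hql, hT, ?_, ?_⟩
  · have h1 := tail_le K α c hα0 hc q h.q1 h.up q le_rfl
    have h2 : (q : ℝ) ^ (-α) ≤ 2 / s * (ℓ : ℝ) ^ (-α) := by
      have hx : 0 < s / 2 * ℓ := by positivity
      calc (q : ℝ) ^ (-α) ≤ (s / 2 * ℓ) ^ (-α) :=
            Real.rpow_le_rpow_of_nonpos hx hq2 (by linarith)
        _ = (s / 2) ^ (-α) * (ℓ : ℝ) ^ (-α) := Real.mul_rpow (by positivity) hl0
        _ ≤ 2 / s * (ℓ : ℝ) ^ (-α) := by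
            refine mul_le_mul_of_nonneg_right ?_ (Real.rpow_nonneg hl0 _)
            calc (s / 2) ^ (-α) ≤ (s / 2) ^ (-1 : ℝ) :=
                  Real.rpow_le_rpow_of_exponent_ge (by positivity) (by linarith) (by linarith)
              _ = 2 / s := by rw [Real.rpow_neg_one, inv_div]
    have h3 : (ℓ : ℝ) ^ (-α) * ℓ = (ℓ : ℝ) ^ (1 - α) := by
      rw [show (1 - α) = -α + 1 by ring, Real.rpow_add hlp, Real.rpow_one]
    calc tailK K (q + 1) * ℓ ≤ (2 * c / α * (q : ℝ) ^ (-α)) * ℓ := by gcongr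
      _ ≤ (2.02 * c * (2 / s * (ℓ : ℝ) ^ (-α))) * ℓ := by
          have : 0 ≤ (q : ℝ) ^ (-α) := Real.rpow_nonneg (by linarith) _
          gcongr
      _ = 4.04 / s * (c * (ℓ : ℝ) ^ (1 - α)) := by rw [← h3]; ring
      _ ≤ 4.04 / s * (4 * δ * TS K ℓ) := by gcongr
      _ = 16.16 * s * TS K ℓ := by
          rw [← hss]
          field_simp
          ring
      _ ≤ 32 * s * TS K ℓ := by
          have := mul_pos hs0 hT
          nlinarith
  · have h1 := tail_le K α c hα0 hc q h.q1 h.up ℓ (by exact_mod_cast hql)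
    have h3 : (ℓ : ℝ) ^ (-α) * ℓ = (ℓ : ℝ) ^ (1 - α) := by
      rw [show (1 - α) = -α + 1 by ring, Real.rpow_add hlp, Real.rpow_one]
    have h0 : 0 ≤ (ℓ : ℝ) ^ (-α) := Real.rpow_nonneg hl0 _
    calc tailK K (ℓ + 1) * ℓ ≤ (2 * c / α * (ℓ : ℝ) ^ (-α)) * ℓ := by gcongr
      _ ≤ (2.02 * c * (ℓ : ℝ) ^ (-α)) * ℓ := by gcongr
      _ = 2.02 * (c * (ℓ : ℝ) ^ (1 - α)) := by rw [← h3]; ring
      _ ≤ 2.02 * (4 * δ * TS K ℓ) := by gcongr
      _ ≤ 16 * δ * TS K ℓ := by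
          have := mul_pos hδ0 hT
          nlinarith

end Pool.Agent.H36.SLN
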